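import Pool.Agent.Helper33.TB.Goals

/-!
Helper64, packet TB MG (11805) of helper33: exponential moments of a thinned set.
-/

set_option autoImplicit false

open Finset

namespace Pool.Agent.Helper64.TB

open Pool.Agent.Helper33.TB

theorem Av_le {Q : ℕ} {f g : ℤ → ℝ} (h : ∀ t, f t ≤ g t) : Av Q f ≤ Av Q g := by
  unfold Av
  exact div_le_div_of_nonneg_right (Finset.sum_le_sum fun t _ => h t) (Nat.cast_nonneg Q)

theorem Av_add (Q : ℕ) (f g : ℤ → ℝ) : Av Q (fun t => f t + g t) = Av Q f + Av Q g := by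
  unfold Av
  rw [Finset.sum_add_distrib, add_div]

theorem Av_mul (Q : ℕ) (c : ℝ) (f : ℤ → ℝ) : Av Q (fun t => c * f t) = c * Av Q f := by
  unfold Av
  rw [← Finset.mul_sum, mul_div_assoc]

theorem Av_const {Q : ℕ} (hQ : 0 < Q) (c : ℝ) : Av Q (fun _ => c) = c := by
  unfold Av
  rw [Finset.sum_const, Finset.card_range, nsmul_eq_mul]
  have : (Q : ℝ) ≠ 0 := by positivity
  field_simp

theorem Av_sum {ι : Type*} (Q : ℕ) (s : Finset ι) (f : ι → ℤ → ℝ) :
    Av Q (fun t => ∑ i ∈ s, f i t) = ∑ i ∈ s, Av Q (f i) := by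
  unfold Av
  rw [Finset.sum_comm, Finset.sum_div]

theorem exp_bound (x : ℝ) (hx : |x| ≤ 1) : Real.exp (-x) ≤ 1 - x + x ^ 2 := by
  have h := Real.abs_exp_sub_one_sub_id_le (x := -x) (by rwa [abs_neg])
  have h2 := abs_le.1 h
  have h3 := h2.2
  nlinarith

theorem gS_mem {P : Finset ℕ} (hP : ∀ p ∈ P, 5 ≤ p) : 0 ≤ gS P ∧ gS P ≤ 1 := by
  unfold gS
  constructor
  · apply Finset.prod_nonneg
    intro p hp
    have h5 : (5 : ℝ) ≤ p := by exact_mod_cast hP p hp
    have : 2 / (p : ℝ) ≤ 1 := by rw [div_le_one (by linarith)]; linarith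
    linarith
  · apply Finset.prod_le_one
    · intro p hp
      have h5 : (5 : ℝ) ≤ p := by exact_mod_cast hP p hp
      have : 2 / (p : ℝ) ≤ 1 := by rw [div_le_one (by linarith)]; linarith
      linarith
    · intro p hp
      have h5 : (5 : ℝ) ≤ p := by exact_mod_cast hP p hp
      have : 0 ≤ 2 / (p : ℝ) := by positivity
      linarith

theorem mg (hPER : StmtPER) (hXSB : StmtXSB) : StmtMG := by
  classical
  intro P b w hw
  set M : ℝ := 2 * ((b : ℝ) / w + 1) with hM
  have hw' : (0 : ℝ) < w := by exact_mod_cast hw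
  have hM0 : 0 < M := by rw [hM]; positivity
  induction P using Finset.induction_on with
  | empty =>
    intro _ U hU l hl
    unfold Av XS QS gS
    simp only [Finset.prod_empty, Finset.sum_empty, Finset.range_one, Finset.sum_singleton,
      Nat.cast_one, div_one, Finset.sum_const, nsmul_eq_mul, mul_one, mul_zero, add_zero,
      Finset.card_singleton]
    have e : l * (U.card : ℝ) = U.card * l := mul_comm _ _
    rw [e]
    simp
  | insert p P hpP ih =>
    intro hP U hU l hl
    have hPp := hP p (Finset.mem_insert_self p P)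
    have hP' : ∀ p ∈ P, p.Prime ∧ 5 ≤ p ∧ w < p := fun r hr => hP r (Finset.mem_insert_of_mem hr)
    have hp0 : 0 < p := hPp.1.pos
    have hpr : (0 : ℝ) < p := by exact_mod_cast hp0
    have hp5 : (5 : ℝ) ≤ p := by exact_mod_cast hPp.2.1
    set S : ℝ := ∑ r ∈ P, 1 / (r : ℝ) with hS
    have hS0 : 0 ≤ S := Finset.sum_nonneg fun r _ => by positivity
    rw [Finset.sum_insert hpP] at hl ⊢
    rw [← hS] at hl ⊢
    have hl' : 8 * |l| * M * (1 + S) ≤ 1 := by
      refine le_trans ?_ hl
      apply mul_le_mul_of_nonneg_left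
      · have : (0 : ℝ) < 1 / (p : ℝ) := by positivity
        linarith
      · positivity
    set g := gS P with hg
    obtain ⟨hg0, hg1⟩ := gS_mem (P := P) fun r hr => (hP' r hr).2.1
    set κ : ℝ := l * g + 8 * l ^ 2 * M * S with hκ
    have hl0 := abs_nonneg l
    have h8 : 8 * |l| * M * S ≤ 1 := by
      have : 0 ≤ 8 * |l| * M := by positivity
      nlinarith
    have h8' : 8 * |l| * M ≤ 1 := by
      have : 0 ≤ 8 * |l| * M * S := by positivity
      nlinarith
    have hκ2 : |κ| ≤ 2 * |l| := by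
      rw [hκ]
      refine (abs_add_le _ _).trans ?_
      rw [abs_mul, abs_of_nonneg hg0]
      have e : |8 * l ^ 2 * M * S| = |l| * (8 * |l| * M * S) := by
        rw [abs_of_nonneg (by positivity)]
        have : l ^ 2 = |l| ^ 2 := (sq_abs l).symm
        rw [this]; ring
      rw [e]
      nlinarith
    have hκM : |κ| * M ≤ 1 := by nlinarith
    have hκsq : κ ^ 2 ≤ 4 * l ^ 2 := by
      have h1 : |κ| ^ 2 ≤ (2 * |l|) ^ 2 := pow_le_pow_left₀ (abs_nonneg _) hκ2 2
      rw [sq_abs] at h1
      rw [mul_pow, sq_abs] at h1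
      linarith
    -- the count
    set n : ℤ → ℝ := fun a => ∑ i ∈ U, yI p (a + (i : ℤ)) with hn
    have hyn : ∀ t, 0 ≤ yI p t := fun t => by
      rcases hXSB.yzo p t with h | h <;> rw [h]
      exact zero_le_one
    have hn0 : ∀ a, 0 ≤ n a := fun a => Finset.sum_nonneg fun i _ => hyn _
    have hnM : ∀ a, n a ≤ M := by
      intro a
      have h1 : n a ≤ Nb (yI p) b a := by
        unfold Nb
        exact Finset.sum_le_sum_of_subset_of_nonneg hU fun i _ _ => hyn _
      refine h1.trans ((hXSB.cnt p b hPp.1 hPp.2.1 a).trans ?_)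
      rw [hM]
      have hwp : (w : ℝ) ≤ p := by exact_mod_cast hPp.2.2.le
      have : (b : ℝ) / p ≤ b / w := div_le_div_of_nonneg_left (Nat.cast_nonneg b) hw' hwp
      linarith
    have hnAv : Av p n = 2 * U.card / p := by
      rw [hn, Av_sum]
      have : ∀ i ∈ U, Av p (fun t => yI p (t + (i : ℤ))) = 2 / (p : ℝ) := by
        intro i _
        rw [hPER.shift p (yI p) (hXSB.yper p) i, hXSB.two p hPp.1 hPp.2.1]
      rw [Finset.sum_congr rfl this, Finset.sum_const, nsmul_eq_mul]
      ring
    -- CRT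
    have hcop := hXSB.cop {p} P (by simpa using hPp.1) (fun r hr => (hP' r hr).1)
      (by simpa using hpP)
    have hQ1 : QS {p} = p := by unfold QS; simp
    rw [hQ1] at hcop
    have hQP : 0 < QS P := by
      unfold QS
      exact Finset.prod_pos fun r hr => (hP' r hr).1.pos
    have hQ : QS (insert p P) = p * QS P := by unfold QS; rw [Finset.prod_insert hpP]
    have hXS : ∀ t, XS (insert p P) t = (1 - yI p t) * XS P t := by
      intro t; unfold XS; rw [Finset.prod_insert hpP]
    have hcrt := hPER.crt p (QS P) hp0 hQP hcop.1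
      (fun a c => Real.exp (l * ∑ i ∈ U, (1 - yI p (a + (i : ℤ))) * XS P (c + (i : ℤ))))
      (by
        intro a c
        have : ∀ i : ℕ, yI p (a + (p : ℤ) + (i : ℤ)) = yI p (a + (i : ℤ)) := by
          intro i
          have := hXSB.yper p (a + (i : ℤ))
          rw [show a + (p : ℤ) + (i : ℤ) = a + (i : ℤ) + p by ring]
          exact this
        simp only [this])
      (by
        intro a c
        have : ∀ i : ℕ, XS P (c + (QS P : ℤ) + (i : ℤ)) = XS P (c + (i : ℤ)) := by
          intro i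
          have := hXSB.per P (c + (i : ℤ))
          rw [show c + (QS P : ℤ) + (i : ℤ) = c + (i : ℤ) + QS P by ring]
          exact this
        simp only [this])
    rw [hQ]
    simp only [hXS]
    rw [hcrt]
    -- inner bound
    have hin : ∀ a : ℤ, Av (QS P) (fun c => Real.exp (l * ∑ i ∈ U,
        (1 - yI p (a + (i : ℤ))) * XS P (c + (i : ℤ)))) ≤
        Real.exp (κ * U.card) * (1 - κ * n a + κ ^ 2 * M * n a) := by
      intro a
      set U' := U.filter (fun i : ℕ => yI p (a + (i : ℤ)) = 0) with hU'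
      have e1 : ∀ c : ℤ, ∑ i ∈ U, (1 - yI p (a + (i : ℤ))) * XS P (c + (i : ℤ))
          = ∑ i ∈ U', XS P (c + (i : ℤ)) := by
        intro c
        rw [hU', Finset.sum_filter]
        apply Finset.sum_congr rfl
        intro i _
        rcases hXSB.yzo p (a + (i : ℤ)) with h | h
        · rw [if_pos h, h]; ring
        · rw [if_neg (by rw [h]; exact one_ne_zero), h]; ring
      have hc : (U'.card : ℝ) = U.card - n a := by
        have : (U'.card : ℝ) = ∑ i ∈ U, (1 - yI p (a + (i : ℤ))) := by
          rw [hU', Finset.card_filter]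
          push_cast
          apply Finset.sum_congr rfl
          intro i _
          rcases hXSB.yzo p (a + (i : ℤ)) with h | h
          · rw [if_pos h, h]; ring
          · rw [if_neg (by rw [h]; exact one_ne_zero), h]; ring
        rw [this, Finset.sum_sub_distrib, Finset.sum_const, nsmul_eq_mul, mul_one]
      have h1 := ih hP' U' ((Finset.filter_subset _ _).trans hU) l hl'
      simp only [e1]
      refine h1.trans ?_
      rw [hc, ← hκ]
      have e2 : ((U.card : ℝ) - n a) * κ = κ * U.card + -(κ * n a) := by ring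
      rw [e2, Real.exp_add]
      apply mul_le_mul_of_nonneg_left _ (Real.exp_pos _).le
      have hab : |κ * n a| ≤ 1 := by
        rw [abs_mul, abs_of_nonneg (hn0 a)]
        exact (mul_le_mul_of_nonneg_left (hnM a) (abs_nonneg _)).trans hκM
      refine (exp_bound _ hab).trans ?_
      have : (κ * n a) ^ 2 ≤ κ ^ 2 * M * n a := by
        have h2 : n a * n a ≤ M * n a := mul_le_mul_of_nonneg_right (hnM a) (hn0 a)
        have h3 : 0 ≤ κ ^ 2 := sq_nonneg κ
        nlinarith
      linarith
    refine (Av_le hin).trans ?_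
    have e3 : Av p (fun a => Real.exp (κ * U.card) * (1 - κ * n a + κ ^ 2 * M * n a))
        = Real.exp (κ * U.card) * (1 + (-κ + κ ^ 2 * M) * (2 * U.card / p)) := by
      rw [Av_mul]
      congr 1
      have : (fun a => 1 - κ * n a + κ ^ 2 * M * n a)
          = fun a => (fun _ : ℤ => (1 : ℝ)) a + (-κ + κ ^ 2 * M) * n a := by
        funext a; ring
      rw [this, Av_add, Av_const hp0, Av_mul, hnAv]
    rw [e3]
    have h4 : 1 + (-κ + κ ^ 2 * M) * (2 * U.card / p)
        ≤ Real.exp ((-κ + κ ^ 2 * M) * (2 * U.card / p)) := by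
      have := Real.add_one_le_exp ((-κ + κ ^ 2 * M) * (2 * U.card / p))
      linarith
    refine (mul_le_mul_of_nonneg_left h4 (Real.exp_pos _).le).trans ?_
    rw [← Real.exp_add]
    apply Real.exp_le_exp.2
    have hgi : gS (insert p P) = (1 - 2 / (p : ℝ)) * g := by
      unfold gS at hg ⊢
      rw [Finset.prod_insert hpP, ← hg]
    rw [hgi]
    have hU0 : (0 : ℝ) ≤ U.card := Nat.cast_nonneg _
    have e4 : κ * U.card + (-κ + κ ^ 2 * M) * (2 * U.card / p)
        = U.card * (κ * (1 - 2 / p) + κ ^ 2 * M * 2 / p) := by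
      field_simp
      ring
    rw [e4]
    apply mul_le_mul_of_nonneg_left _ hU0
    have h5 : κ ^ 2 * M * 2 / p ≤ 8 * l ^ 2 * M * (1 / p) := by
      rw [div_eq_mul_one_div (κ ^ 2 * M * 2)]
      apply mul_le_mul_of_nonneg_right _ (by positivity)
      nlinarith
    have h6 : κ * (1 - 2 / (p : ℝ)) ≤ l * ((1 - 2 / (p : ℝ)) * g) + 8 * l ^ 2 * M * S := by
      rw [hκ]
      have h7 : 0 ≤ 8 * l ^ 2 * M * S * (2 / (p : ℝ)) := by positivity
      nlinarith
    calc κ * (1 - 2 / (p : ℝ)) + κ ^ 2 * M * 2 / p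
        ≤ (l * ((1 - 2 / (p : ℝ)) * g) + 8 * l ^ 2 * M * S) + 8 * l ^ 2 * M * (1 / p) := by
          linarith
      _ = _ := by ring

end Pool.Agent.Helper64.TB
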