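import Pool.Agent.Helper33.TB.Goals

/-!
Helper64, packet TB T4 (11797) of helper33: from the average over the elements to the average
over all integers.
-/

set_option autoImplicit false

open Finset

namespace Pool.Agent.Helper64.TB4

open Pool.Agent.Helper33.TB

theorem Av_le {Q : ℕ} {f g : ℤ → ℝ} (h : ∀ t, f t ≤ g t) : Av Q f ≤ Av Q g := by
  unfold Av
  exact div_le_div_of_nonneg_right (Finset.sum_le_sum fun t _ => h t) (Nat.cast_nonneg Q)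

theorem Av_add (Q : ℕ) (f g : ℤ → ℝ) : Av Q (fun t => f t + g t) = Av Q f + Av Q g := by
  unfold Av
  rw [Finset.sum_add_distrib, add_div]

theorem Av_mul (Q : ℕ) (c : ℝ) (f : ℤ → ℝ) : Av Q (fun t => c * f t) = c * Av Q f := by
  unfold Av
  rw [← Finset.mul_sum, mul_div_assoc]

theorem Av_const {Q : ℕ} (hQ : 0 < Q) (c : ℝ) : Av Q (fun _ => c) = c := by
  unfold Av
  rw [Finset.sum_const, Finset.card_range, nsmul_eq_mul]
  have : (Q : ℝ) ≠ 0 := by positivity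
  field_simp

theorem Av_sum {ι : Type*} (Q : ℕ) (s : Finset ι) (f : ι → ℤ → ℝ) :
    Av Q (fun t => ∑ i ∈ s, f i t) = ∑ i ∈ s, Av Q (f i) := by
  unfold Av
  rw [Finset.sum_comm, Finset.sum_div]

section Block

variable {X F : ℤ → ℝ} {τ : ℝ}

theorem step (hX : ∀ t, X t = 0 ∨ X t = 1) (hF : RecF X τ F) (hb : ∀ t, τ * |F t| ≤ 1)
    (h0 : 0 ≤ τ) (t : ℤ) (m : ℕ) :
    |(-1) ^ m * F (t + (m : ℤ)) - (-1) ^ (m + 1) * F (t + ((m + 1 : ℕ) : ℤ))|
      ≤ 2 * X (t + ((m + 1 : ℕ) : ℤ)) := by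
  have h1 := hF (t + (m : ℤ))
  have e : t + (m : ℤ) + 1 = t + ((m + 1 : ℕ) : ℤ) := by push_cast; ring
  rw [e] at h1
  set T := t + ((m + 1 : ℕ) : ℤ)
  have e2 : (-1 : ℝ) ^ m * F (t + (m : ℤ)) - (-1) ^ (m + 1) * F T
      = (-1) ^ m * (-X T * (1 - τ * F T)) := by
    rw [h1, pow_succ]; ring
  rw [e2, abs_mul, abs_pow, abs_neg, abs_one, one_pow, one_mul, abs_mul, abs_neg]
  have hx : |X T| = X T := by
    rcases hX T with h | h <;> rw [h] <;> simp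
  rw [hx]
  have hx0 : 0 ≤ X T := by rw [← hx]; exact abs_nonneg _
  have h3 : |1 - τ * F T| ≤ 2 := by
    have h4 : |τ * F T| ≤ 1 := by rw [abs_mul, abs_of_nonneg h0]; exact hb T
    have h5 := abs_le.1 h4
    rw [abs_le]
    constructor <;> linarith [h5.1, h5.2]
  nlinarith

theorem steps (hX : ∀ t, X t = 0 ∨ X t = 1) (hF : RecF X τ F) (hb : ∀ t, τ * |F t| ≤ 1)
    (h0 : 0 ≤ τ) (t : ℤ) (m k : ℕ) :
    |(-1) ^ m * F (t + (m : ℤ)) - (-1) ^ (m + k) * F (t + ((m + k : ℕ) : ℤ))|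
      ≤ 2 * ∑ i ∈ range k, X (t + ((m + 1 + i : ℕ) : ℤ)) := by
  induction k with
  | zero => simp
  | succ k ih =>
    rw [Finset.sum_range_succ, mul_add]
    have h1 := step hX hF hb h0 t (m + k)
    have e : m + 1 + k = m + k + 1 := by ring
    rw [e]
    rw [show m + (k + 1) = m + k + 1 by ring]
    calc |(-1) ^ m * F (t + (m : ℤ)) - (-1) ^ (m + k + 1) * F (t + ((m + k + 1 : ℕ) : ℤ))|
        = |((-1) ^ m * F (t + (m : ℤ)) - (-1) ^ (m + k) * F (t + ((m + k : ℕ) : ℤ)))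
          + ((-1) ^ (m + k) * F (t + ((m + k : ℕ) : ℤ))
            - (-1) ^ (m + k + 1) * F (t + ((m + k + 1 : ℕ) : ℤ)))| := by congr 1; ring
      _ ≤ _ := (abs_add_le _ _).trans (add_le_add ih h1)

theorem sq_bound (hX : ∀ t, X t = 0 ∨ X t = 1) (hF : RecF X τ F) (hb : ∀ t, τ * |F t| ≤ 1)
    (h0 : 0 ≤ τ) (t : ℤ) (m b : ℕ) (hm : m ≤ b) :
    F (t + (b : ℤ)) ^ 2 / 2 - 4 * Nb X (b + 1) t ^ 2 ≤ F (t + (m : ℤ)) ^ 2 := by
  have hx0 : ∀ t, 0 ≤ X t := fun t => by rcases hX t with h | h <;> rw [h]; exact zero_le_one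
  obtain ⟨k, rfl⟩ := Nat.exists_eq_add_of_le hm
  have h1 := steps hX hF hb h0 t m k
  have h2 : ∑ i ∈ range k, X (t + ((m + 1 + i : ℕ) : ℤ)) ≤ Nb X (m + k + 1) t := by
    unfold Nb
    have e : ∑ i ∈ range k, X (t + ((m + 1 + i : ℕ) : ℤ))
        = ∑ j ∈ Finset.Ico (m + 1) (m + 1 + k), X (t + (j : ℤ)) := by
      rw [Finset.sum_Ico_eq_sum_range]
      congr 1
      congr 1
      omega
    rw [e]
    apply Finset.sum_le_sum_of_subset_of_nonneg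
    · intro j hj
      rw [Finset.mem_Ico] at hj
      rw [Finset.mem_range]
      omega
    · intro i _ _
      exact hx0 _
  have h3 : |(-1) ^ m * F (t + (m : ℤ)) - (-1) ^ (m + k) * F (t + ((m + k : ℕ) : ℤ))|
      ≤ 2 * Nb X (m + k + 1) t := by linarith
  set N := Nb X (m + k + 1) t
  set G := (-1 : ℝ) ^ m * F (t + (m : ℤ)) with hG
  set G' := (-1 : ℝ) ^ (m + k) * F (t + ((m + k : ℕ) : ℤ)) with hG'
  have e1 : F (t + (m : ℤ)) ^ 2 = G ^ 2 := by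
    rw [hG, mul_pow, ← pow_mul, mul_comm m 2, pow_mul]; norm_num
  have e2 : F (t + ((m + k : ℕ) : ℤ)) ^ 2 = G' ^ 2 := by
    rw [hG', mul_pow, ← pow_mul, mul_comm (m + k) 2, pow_mul]; norm_num
  rw [e1, e2]
  have h4 := abs_le.1 h3
  have h5 : (G - G') ^ 2 ≤ 4 * N ^ 2 := by
    have := sq_le_sq' h4.1 h4.2
    linarith
  nlinarith [sq_nonneg (2 * G - G')]

end Block

theorem t4 (hPER : StmtPER) : StmtT4 := by
  classical
  intro Q X hS τ b ε δ F hτ hτ1 hε hε1 hδ h2 hβ hC hFp hFr hFb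
  set ρ := Av Q X with hρ
  have hb0 : (0 : ℝ) ≤ b := Nat.cast_nonneg b
  have hρ0 : 0 < ρ := by
    by_contra h
    have : ρ * b ≤ 0 := mul_nonpos_of_nonpos_of_nonneg (not_lt.1 h) hb0
    linarith
  have hbpos : (0 : ℝ) < b := by
    rcases hb0.lt_or_eq with h | h
    · exact h
    · rw [← h] at h2; linarith
  have hx0 : ∀ t, 0 ≤ X t := fun t => by rcases hS.zo t with h | h <;> rw [h]; exact zero_le_one
  have hx1 : ∀ t, X t ≤ 1 := fun t => by rcases hS.zo t with h | h <;> rw [h]; exact zero_le_one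
  have hρ1 : ρ ≤ 1 := by
    rw [hρ, ← Av_const hS.pos 1]
    exact Av_le hx1
  have hFb' : ∀ t, τ * |F t| ≤ 1 := fun t => by
    have := mul_le_mul_of_nonneg_left (hFb t) hτ.le
    rwa [mul_one_div_cancel hτ.ne'] at this
  have hFsq : ∀ t, F t ^ 2 ≤ 1 / τ ^ 2 := fun t => by
    have := pow_le_pow_left₀ (abs_nonneg _) (hFb t) 2
    rwa [sq_abs, div_pow, one_pow] at this
  -- the bad set
  set B : ℤ → ℝ := fun t => if ε * (ρ * b) < |Nb X b t - ρ * b| then 1 else 0 with hB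
  have hBδ : Av Q B ≤ δ := hC
  have hB0 : ∀ t, 0 ≤ B t := fun t => by
    rw [hB]; dsimp only; split_ifs <;> norm_num
  have hNper : Per Q (Nb X b) := by
    intro t
    unfold Nb
    apply Finset.sum_congr rfl
    intro i _
    rw [show t + (Q : ℤ) + (i : ℤ) = t + (i : ℤ) + Q by ring]
    exact hS.per _
  have hBper : Per Q B := by
    intro t
    rw [hB]; dsimp only; rw [hNper t]
  -- pointwise inequality
  set N : ℤ → ℝ := fun t => Nb X (b + 1) t with hN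
  have hN0 : ∀ t, 0 ≤ N t := fun t => Finset.sum_nonneg fun i _ => hx0 _
  have hNsplit : ∀ t, N t = Nb X b t + X (t + (b : ℤ)) := fun t => by
    rw [hN]; unfold Nb; dsimp only; rw [Finset.sum_range_succ]
  have hN1 : ∀ t, N t ≤ b + 1 := fun t => by
    rw [hN]; unfold Nb; dsimp only
    calc ∑ i ∈ range (b + 1), X (t + (i : ℤ)) ≤ ∑ i ∈ range (b + 1), (1 : ℝ) :=
          Finset.sum_le_sum fun i _ => hx1 _
      _ = b + 1 := by simp
  have hN' : ∀ t, Nb X b (t + 1) ≤ N t := fun t => by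
    rw [hN]; unfold Nb; dsimp only
    rw [Finset.sum_range_succ']
    have : ∀ i : ℕ, t + 1 + (i : ℤ) = t + ((i + 1 : ℕ) : ℤ) := fun i => by push_cast; ring
    simp only [this]
    have := hx0 (t + ((0 : ℕ) : ℤ))
    linarith
  have hNb0 : ∀ t, 0 ≤ Nb X b t := fun t => Finset.sum_nonneg fun i _ => hx0 _
  have hcube : ∀ t, N t ^ 3 ≤ 8 * (ρ * b) ^ 3 + ((b : ℝ) + 1) ^ 3 * B t := by
    intro t
    by_cases hg : ε * (ρ * b) < |Nb X b t - ρ * b|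
    · have e : B t = 1 := by rw [hB]; dsimp only; rw [if_pos hg]
      rw [e]
      have h1 := pow_le_pow_left₀ (hN0 t) (hN1 t) 3
      have h3 : 0 ≤ (ρ * b) ^ 3 := by positivity
      linarith
    · have e : B t = 0 := by rw [hB]; dsimp only; rw [if_neg hg]
      rw [e]
      have h3 := abs_le.1 (not_lt.1 hg)
      have h4 : N t ≤ 2 * (ρ * b) := by
        rw [hNsplit]
        have := hx1 (t + (b : ℤ))
        nlinarith [h3.2]
      have h5 := pow_le_pow_left₀ (hN0 t) h4 3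
      rw [mul_pow] at h5
      linarith
  have hlow : ∀ t, (ρ * b / 2) * F (t + (b : ℤ)) ^ 2 - (ρ * b / 2 / τ ^ 2) * B (t + 1)
      ≤ Nb X b (t + 1) * F (t + (b : ℤ)) ^ 2 := by
    intro t
    by_cases hg : ε * (ρ * b) < |Nb X b (t + 1) - ρ * b|
    · have e : B (t + 1) = 1 := by rw [hB]; dsimp only; rw [if_pos hg]
      rw [e]
      have h1 : 0 ≤ Nb X b (t + 1) * F (t + (b : ℤ)) ^ 2 := mul_nonneg (hNb0 _) (sq_nonneg _)
      have h3 : (ρ * b / 2) * F (t + (b : ℤ)) ^ 2 ≤ (ρ * b / 2) * (1 / τ ^ 2) :=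
        mul_le_mul_of_nonneg_left (hFsq _) (by positivity)
      have h4 : (ρ * b / 2) * (1 / τ ^ 2) = (ρ * b / 2 / τ ^ 2) * 1 := by ring
      linarith
    · have e : B (t + 1) = 0 := by rw [hB]; dsimp only; rw [if_neg hg]
      rw [e]
      have h3 := abs_le.1 (not_lt.1 hg)
      have h4 : ρ * b / 2 ≤ Nb X b (t + 1) := by nlinarith [h3.1]
      have := mul_le_mul_of_nonneg_right h4 (sq_nonneg (F (t + (b : ℤ))))
      linarith
  have hpt : ∀ t, (ρ * b / 4) * F (t + (b : ℤ)) ^ 2 ≤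
      (∑ m ∈ range b, X (t + (m + 1 : ℕ)) * F (t + (m + 1 : ℕ)) ^ 2)
        + (ρ * b / 4 / τ ^ 2) * B (t + 1) + (32 * (ρ * b) ^ 3 + 4 * ((b : ℝ) + 1) ^ 3 * B t) := by
    intro t
    have h1 : ∑ m ∈ range b, X (t + (m + 1 : ℕ)) * (F (t + (b : ℤ)) ^ 2 / 2 - 4 * N t ^ 2)
        ≤ ∑ m ∈ range b, X (t + (m + 1 : ℕ)) * F (t + (m + 1 : ℕ)) ^ 2 := by
      apply Finset.sum_le_sum
      intro m hm
      rw [Finset.mem_range] at hm
      apply mul_le_mul_of_nonneg_left _ (hx0 _)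
      exact sq_bound hS.zo hFr hFb' hτ.le t (m + 1) b hm
    rw [← Finset.sum_mul] at h1
    have e1 : ∑ m ∈ range b, X (t + (m + 1 : ℕ)) = Nb X b (t + 1) := by
      unfold Nb
      apply Finset.sum_congr rfl
      intro m _
      congr 1
      push_cast
      ring
    rw [e1] at h1
    have h3 := hlow t
    have h4 := hcube t
    have h5 : Nb X b (t + 1) * N t ^ 2 ≤ N t ^ 3 := by
      have := mul_le_mul_of_nonneg_right (hN' t) (sq_nonneg (N t))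
      calc Nb X b (t + 1) * N t ^ 2 ≤ N t * N t ^ 2 := this
        _ = N t ^ 3 := by ring
    have e2 : (ρ * b / 4 / τ ^ 2) * B (t + 1) = ((ρ * b / 2 / τ ^ 2) * B (t + 1)) / 2 := by ring
    rw [e2]
    nlinarith
  -- average
  have hav := Av_le (Q := Q) hpt
  have e1 : Av Q (fun t => (ρ * b / 4) * F (t + (b : ℤ)) ^ 2)
      = (ρ * b / 4) * Av Q (fun t => F t ^ 2) := by
    rw [Av_mul]
    congr 1
    exact hPER.shift Q (fun t => F t ^ 2)
      (fun t => by show F (t + Q) ^ 2 = F t ^ 2; rw [hFp t]) b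
  have hXF : Per Q (fun t => X t * F t ^ 2) := fun t => by
    show X (t + Q) * F (t + Q) ^ 2 = _
    rw [hS.per t, hFp t]
  have e2 : Av Q (fun t => ((∑ m ∈ range b, X (t + (m + 1 : ℕ)) * F (t + (m + 1 : ℕ)) ^ 2)
        + (ρ * b / 4 / τ ^ 2) * B (t + 1)) + (32 * (ρ * b) ^ 3 + 4 * ((b : ℝ) + 1) ^ 3 * B t))
      = b * Av Q (fun t => X t * F t ^ 2) + (ρ * b / 4 / τ ^ 2) * Av Q B
        + (32 * (ρ * b) ^ 3 + 4 * ((b : ℝ) + 1) ^ 3 * Av Q B) := by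
    rw [Av_add, Av_add, Av_add, Av_mul, Av_mul, Av_const hS.pos, Av_sum]
    have h1 : ∀ m ∈ range b, Av Q (fun t => X (t + (m + 1 : ℕ)) * F (t + (m + 1 : ℕ)) ^ 2)
        = Av Q (fun t => X t * F t ^ 2) := by
      intro m _
      exact hPER.shift Q (fun t => X t * F t ^ 2) hXF ((m + 1 : ℕ) : ℤ)
    rw [Finset.sum_congr rfl h1, Finset.sum_const, Finset.card_range, nsmul_eq_mul,
      hPER.shift Q B hBper 1, Av_mul]
  rw [e1, e2] at hav
  set y := Av Q (fun t => F t ^ 2)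
  set W := Av Q (fun t => X t * F t ^ 2)
  have h3 : (ρ * b / 4) * y ≤ b * W + (ρ * b / 4 / τ ^ 2) * δ
        + (32 * (ρ * b) ^ 3 + 4 * ((b : ℝ) + 1) ^ 3 * δ) := by
    have h4 : (ρ * b / 4 / τ ^ 2) * Av Q B ≤ (ρ * b / 4 / τ ^ 2) * δ :=
      mul_le_mul_of_nonneg_left hBδ (by positivity)
    have h5 : 4 * ((b : ℝ) + 1) ^ 3 * Av Q B ≤ 4 * ((b : ℝ) + 1) ^ 3 * δ :=
      mul_le_mul_of_nonneg_left hBδ (by positivity)
    linarith
  have h4 : τ * y ≤ 4 * (τ * W / ρ) + δ / τ + 128 * (τ * (ρ * b) ^ 2)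
      + 16 * τ * δ * ((b : ℝ) + 1) ^ 3 / (ρ * b) := by
    have h5 := mul_le_mul_of_nonneg_left h3 (show 0 ≤ 4 * τ / (ρ * b) by positivity)
    have e3 : 4 * τ / (ρ * b) * (ρ * b / 4 * y) = τ * y := by field_simp
    have e4 : 4 * τ / (ρ * b) * (b * W + (ρ * b / 4 / τ ^ 2) * δ
        + (32 * (ρ * b) ^ 3 + 4 * ((b : ℝ) + 1) ^ 3 * δ))
        = 4 * (τ * W / ρ) + δ / τ + 128 * (τ * (ρ * b) ^ 2)
      + 16 * τ * δ * ((b : ℝ) + 1) ^ 3 / (ρ * b) := by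
      field_simp
      ring
    rw [e3, e4] at h5
    exact h5
  have hsq : τ * (ρ * b) ^ 2 ≤ ρ * b * Real.sqrt τ := by
    have h5 : τ * (ρ * b) ^ 2 = (ρ * b * Real.sqrt τ) ^ 2 := by
      calc τ * (ρ * b) ^ 2 = (ρ * b) ^ 2 * Real.sqrt τ ^ 2 := by rw [Real.sq_sqrt hτ.le]; ring
        _ = _ := by ring
    rw [h5]
    have h6 : 0 ≤ ρ * b * Real.sqrt τ := by positivity
    nlinarith
  set Z := δ * ((b : ℝ) + 1) ^ 3 / (τ * ρ ^ 2) with hZ
  have hb1 : 1 ≤ ((b : ℝ) + 1) ^ 3 := one_le_pow₀ (by linarith)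
  have hZ0 : 0 ≤ Z := by rw [hZ]; positivity
  have hρsq : ρ ^ 2 ≤ 1 := pow_le_one₀ hρ0.le hρ1
  have h5 : δ / τ ≤ Z := by
    rw [hZ, div_le_div_iff₀ hτ (by positivity)]
    have h6 : δ * ρ ^ 2 ≤ δ * ((b : ℝ) + 1) ^ 3 := mul_le_mul_of_nonneg_left (by linarith) hδ
    calc δ * (τ * ρ ^ 2) = (δ * ρ ^ 2) * τ := by ring
      _ ≤ δ * ((b : ℝ) + 1) ^ 3 * τ := mul_le_mul_of_nonneg_right h6 hτ.le
  have h6 : 16 * τ * δ * ((b : ℝ) + 1) ^ 3 / (ρ * b) ≤ 16 * Z := by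
    rw [hZ, ← mul_div_assoc, div_le_div_iff₀ (by positivity) (by positivity)]
    have h7 : τ * (τ * ρ ^ 2) ≤ ρ * b := by
      have h8 : τ * ρ ^ 2 ≤ 1 := by nlinarith
      have h9 : τ * (τ * ρ ^ 2) ≤ 1 := by
        have : 0 ≤ τ * ρ ^ 2 := by positivity
        nlinarith
      linarith
    have h8 : 0 ≤ 16 * (δ * ((b : ℝ) + 1) ^ 3) := by positivity
    calc 16 * τ * δ * ((b : ℝ) + 1) ^ 3 * (τ * ρ ^ 2)
        = 16 * (δ * ((b : ℝ) + 1) ^ 3) * (τ * (τ * ρ ^ 2)) := by ring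
      _ ≤ 16 * (δ * ((b : ℝ) + 1) ^ 3) * (ρ * b) := mul_le_mul_of_nonneg_left h7 h8
  have h7 : 0 ≤ ρ * b * Real.sqrt τ := by positivity
  linarith

end Pool.Agent.Helper64.TB4
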